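import Pool.Agent.Helper91K1.PQ.Stm3
import Pool.Agent.Helper64.PQ.ONE

set_option autoImplicit false

open MeasureTheory Filter Topology Finset
open scoped ENNReal

namespace Pool.Agent.Helper62K5.PQ

open Pool.Agent.Helper91K1.PQ Pool.Agent.Helper64.PQ

/-- the measure of a section -/
theorem sec1 (A : Set ℤ) (N : ℕ) (hN : 1 ≤ N) (u v w : ℝ) :
    volume {y ∈ Set.Icc u v | ⌊w + y * N⌋ ∈ A} =
      ENNReal.ofReal ((N : ℝ)⁻¹) * volume (W A ∩ Set.Icc (u * N + w) (v * N + w)) := by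
  have hN0 : (0 : ℝ) < (N : ℝ) := by exact_mod_cast hN
  have h1 : {y ∈ Set.Icc u v | ⌊w + y * N⌋ ∈ A} =
      (fun x => x * (N : ℝ)) ⁻¹' ((fun x => x + w) ⁻¹'
        (W A ∩ Set.Icc (u * (N : ℝ) + w) (v * (N : ℝ) + w))) := by
    ext x
    simp only [W, Set.mem_ofPred_eq, Set.mem_Icc, Set.mem_preimage, Set.mem_inter_iff,
      add_le_add_iff_right, mul_le_mul_iff_left₀ hN0]
    rw [add_comm w]
    exact and_comm
  rw [h1, Real.volume_preimage_mul_right hN0.ne', measure_preimage_add_right,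
    abs_of_pos (inv_pos.2 hN0)]

theorem t_LIN : S_LIN := by
  intro u v huv L T hL hT N hN w A hA
  have hN0 : (0 : ℝ) < (N : ℝ) := by exact_mod_cast hN
  have hle : u * (N : ℝ) + w ≤ v * (N : ℝ) + w := by
    have := mul_le_mul_of_nonneg_right huv.le hN0.le
    linarith
  have h2 := one_ge hL hT hA hle
  have hfin : volume {y ∈ Set.Icc u v | ⌊w + y * N⌋ ∈ A} ≠ ⊤ := by
    refine ne_top_of_le_ne_top ?_ (measure_mono (Set.sep_subset _ _))
    rw [Real.volume_Icc]
    exact ENNReal.ofReal_ne_top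
  rw [Measure.real, ← ENNReal.ofReal_le_iff_le_toReal hfin, sec1 A N hN]
  refine le_trans (le_of_eq ?_) (mul_le_mul_right h2 _)
  rw [← ENNReal.ofReal_mul (inv_nonneg.2 hN0.le)]
  congr 1
  have e : v * (N : ℝ) + w - (u * N + w) = (v - u) * N := by ring
  rw [e]
  field_simp

end Pool.Agent.Helper62K5.PQ
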